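import Pool.Agent.W960.HC.Defs

open Set Topology Filter MeasureTheory

namespace Pool.Agent.W730.HC

open Pool.Agent.W960.HC

theorem hasDerivAt_kp (X : ℝ) : HasDerivAt kp (-(2 * X ^ 3 * Real.exp (-X ^ 2))) X := by
  have h1 : HasDerivAt (fun x : ℝ => -x ^ 2) (-(2 * X)) X := by
    have := (hasDerivAt_pow 2 X).fun_neg
    simpa using this
  have h2 := h1.exp
  have h3 : HasDerivAt (fun x : ℝ => 1 + x ^ 2) (2 * X) X := by
    have := (hasDerivAt_pow 2 X).const_add 1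
    simpa using this
  have h4 := h2.mul h3
  have e : Real.exp (-X ^ 2) * -(2 * X) * (1 + X ^ 2) + Real.exp (-X ^ 2) * (2 * X) =
      -(2 * X ^ 3 * Real.exp (-X ^ 2)) := by ring
  rw [← e]
  exact h4

theorem continuous_kp : Continuous kp := by
  unfold kp
  fun_prop

theorem kp_pos (X : ℝ) : 0 < kp X := by
  unfold kp
  positivity

theorem kp_anti {x X : ℝ} (hx : 0 ≤ x) (h : x ≤ X) : kp X ≤ kp x := by
  have : AntitoneOn kp (Ici 0) := by
    refine antitoneOn_of_deriv_nonpos (convex_Ici 0) continuous_kp.continuousOn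
      (fun x _ => (hasDerivAt_kp x).differentiableAt.differentiableWithinAt) ?_
    intro x hx
    rw [interior_Ici] at hx
    rw [(hasDerivAt_kp x).deriv]
    have : 0 < x := hx
    have : 0 ≤ 2 * x ^ 3 * Real.exp (-x ^ 2) := by positivity
    linarith
  exact this hx (hx.trans h) h

theorem kp_le_one {X : ℝ} (hX : 0 ≤ X) : kp X ≤ 1 := by
  have := kp_anti le_rfl hX
  have h0 : kp 0 = 1 := by unfold kp; simp
  linarith

/-- `0 ≤ 1 + x² - κ e^{x²}` -/
theorem arg_nonneg {x X : ℝ} (hx : 0 ≤ x) (h : x ≤ X) :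
    0 ≤ 1 + x ^ 2 - kp X * Real.exp (x ^ 2) := by
  have h1 := kp_anti hx h
  have h2 : kp x * Real.exp (x ^ 2) = 1 + x ^ 2 := by
    unfold kp
    have : Real.exp (-x ^ 2) * Real.exp (x ^ 2) = 1 := by
      rw [← Real.exp_add]; simp
    linear_combination (1 + x ^ 2) * this
  have h3 : kp X * Real.exp (x ^ 2) ≤ kp x * Real.exp (x ^ 2) :=
    mul_le_mul_of_nonneg_right h1 (Real.exp_pos _).le
  linarith

theorem Y_sq {x X : ℝ} (hx : 0 ≤ x) (h : x ≤ X) :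
    Y (kp X) x ^ 2 = 1 + x ^ 2 - kp X * Real.exp (x ^ 2) := Real.sq_sqrt (arg_nonneg hx h)

theorem Y_nonneg (κ x : ℝ) : 0 ≤ Y κ x := Real.sqrt_nonneg _

theorem y0_sq (x : ℝ) : Real.sqrt (1 + x ^ 2) ^ 2 = 1 + x ^ 2 := Real.sq_sqrt (by positivity)

theorem Y_le (X x : ℝ) : Y (kp X) x ≤ Real.sqrt (1 + x ^ 2) := by
  unfold Y
  apply Real.sqrt_le_sqrt
  have := kp_pos X
  have : 0 ≤ kp X * Real.exp (x ^ 2) := by positivity
  linarith

theorem one_le_y0 (x : ℝ) : 1 ≤ Real.sqrt (1 + x ^ 2) := by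
  rw [Real.one_le_sqrt]
  nlinarith [sq_nonneg x]

theorem y0_le {x : ℝ} (hx : 0 ≤ x) : Real.sqrt (1 + x ^ 2) ≤ 1 + x := by
  rw [Real.sqrt_le_left (by linarith)]
  nlinarith

theorem continuous_Y (κ : ℝ) : Continuous (Y κ) := by
  unfold Y
  fun_prop

/-- integrand at `κ = 0` -/
noncomputable def w (a c x : ℝ) : ℝ :=
  Real.exp (-x ^ 2) * Real.sqrt (1 + x ^ 2) * (a + c * x ^ 2 + (1 + x ^ 2))

/-- integrand of `Mel` -/
noncomputable def v (a c X x : ℝ) : ℝ :=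
  Real.exp (-x ^ 2) * Y (kp X) x * (a + c * x ^ 2 + Y (kp X) x ^ 2)

theorem continuous_w (a c : ℝ) : Continuous (w a c) := by
  unfold w
  fun_prop

theorem continuous_v (a c X : ℝ) : Continuous (v a c X) := by
  unfold v
  have := continuous_Y (kp X)
  fun_prop

/-- the difference, multiplied by `y₀ + y` -/
theorem diff_eq (a c : ℝ) {x X : ℝ} (hx : 0 ≤ x) (h : x ≤ X) :
    (w a c x - v a c X x) * (Real.sqrt (1 + x ^ 2) + Y (kp X) x) =
      kp X * (a + c * x ^ 2 + (1 + x ^ 2) + Real.sqrt (1 + x ^ 2) * Y (kp X) x +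
        Y (kp X) x ^ 2) := by
  have h1 := Y_sq hx h
  have h2 := y0_sq x
  have hE : Real.exp (-x ^ 2) * Real.exp (x ^ 2) = 1 := by
    rw [← Real.exp_add]; simp
  unfold w v
  set y := Y (kp X) x
  set y0 := Real.sqrt (1 + x ^ 2)
  set E := Real.exp (x ^ 2)
  set E' := Real.exp (-x ^ 2)
  set k := kp X
  have h3 : y0 ^ 2 - y ^ 2 = k * E := by rw [h1, h2]; ring
  have h4 : 1 + x ^ 2 = y0 ^ 2 := h2.symm
  have h5 : E' * (y0 ^ 2 - y ^ 2) = k := by rw [h3]; linear_combination k * hE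
  rw [h4]
  calc (E' * y0 * (a + c * x ^ 2 + y0 ^ 2) - E' * y * (a + c * x ^ 2 + y ^ 2)) * (y0 + y)
      = (E' * (y0 ^ 2 - y ^ 2)) * (a + c * x ^ 2 + y0 ^ 2 + y0 * y + y ^ 2) := by ring
    _ = k * (a + c * x ^ 2 + y0 ^ 2 + y0 * y + y ^ 2) := by rw [h5]

/-- lower bound, `c = -3` -/
theorem diff_lower {a : ℝ} (ha : 0 ≤ a) {x X : ℝ} (hx : 0 ≤ x) (h : x ≤ X) :
    kp X * ((a + 3) / (2 * (1 + x)) - 2 * (kp X * (Real.exp (x ^ 2) / Real.sqrt (1 + x ^ 2)))) ≤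
      w a (-3) x - v a (-3) X x := by
  have h0 := diff_eq a (-3) hx h
  have h1 := Y_sq hx h
  have h2 := y0_sq x
  have h3 := one_le_y0 x
  have h4 := y0_le hx
  have h5 := Y_le X x
  have h6 := Y_nonneg (kp X) x
  have h7 := kp_pos X
  set y := Y (kp X) x
  set y0 := Real.sqrt (1 + x ^ 2)
  set E := Real.exp (x ^ 2)
  set k := kp X
  have hE : 0 < E := Real.exp_pos _
  set Dd := w a (-3) x - v a (-3) X x
  have hs : 0 < y0 + y := by linarith
  have e1 : Dd = k * ((a + -3 * x ^ 2 + (1 + x ^ 2) + y0 * y + y ^ 2) / (y0 + y)) := by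
    rw [← mul_div_assoc, eq_div_iff hs.ne']
    exact h0
  rw [e1]
  apply mul_le_mul_of_nonneg_left _ h7.le
  have e2 : a + 3 - 2 * (k * E) ≤ a + -3 * x ^ 2 + (1 + x ^ 2) + y0 * y + y ^ 2 := by
    have : y ^ 2 ≤ y0 * y := by nlinarith
    nlinarith
  have e3 : (a + 3) / (2 * (1 + x)) ≤ (a + 3) / (y0 + y) := by
    apply div_le_div_of_nonneg_left (by linarith) hs
    linarith
  have e4 : 2 * (k * E) / (y0 + y) ≤ 2 * (k * E) / y0 := by
    apply div_le_div_of_nonneg_left (by positivity) (by linarith)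
    linarith
  calc (a + 3) / (2 * (1 + x)) - 2 * (k * (E / y0))
      = (a + 3) / (2 * (1 + x)) - 2 * (k * E) / y0 := by ring
    _ ≤ (a + 3) / (y0 + y) - 2 * (k * E) / (y0 + y) := by linarith
    _ = (a + 3 - 2 * (k * E)) / (y0 + y) := by ring
    _ ≤ _ := by
        apply div_le_div_of_nonneg_right e2 hs.le

/-- lower bound, `c = -(3 + d)` -/
theorem diff_lower' {a d : ℝ} (ha : 0 ≤ a) (hd : 0 ≤ d) {x X : ℝ} (hx : 0 ≤ x) (h : x ≤ X) :
    kp X * (-((3 + d) * x ^ 2)) ≤ w a (-(3 + d)) x - v a (-(3 + d)) X x := by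
  have h0 := diff_eq a (-(3 + d)) hx h
  have h2 := y0_sq x
  have h3 := one_le_y0 x
  have h5 := Y_le X x
  have h6 := Y_nonneg (kp X) x
  have h7 := kp_pos X
  set y := Y (kp X) x
  set y0 := Real.sqrt (1 + x ^ 2)
  set k := kp X
  set Dd := w a (-(3 + d)) x - v a (-(3 + d)) X x
  have hs : 0 < y0 + y := by linarith
  have e1 : Dd = k * ((a + -(3 + d) * x ^ 2 + (1 + x ^ 2) + y0 * y + y ^ 2) / (y0 + y)) := by
    rw [← mul_div_assoc, eq_div_iff hs.ne']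
    exact h0
  rw [e1]
  apply mul_le_mul_of_nonneg_left _ h7.le
  rw [le_div_iff₀ hs]
  have e2 : 0 ≤ (3 + d) * x ^ 2 := by positivity
  have e3 : 0 ≤ y0 * y := by positivity
  nlinarith [sq_nonneg x, sq_nonneg y, mul_nonneg e2 (by linarith : 0 ≤ y0 + y - 1)]

/-- upper bound, `c = -(3 + d)` -/
theorem diff_upper {a d : ℝ} (ha : 0 ≤ a) (hd : 0 ≤ d) {x X : ℝ} (hx : 0 ≤ x) (h : x ≤ X) :
    w a (-(3 + d)) x - v a (-(3 + d)) X x ≤ kp X * ((a + 3) - d * (x - 1) / 2) := by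
  have h0 := diff_eq a (-(3 + d)) hx h
  have h2 := y0_sq x
  have h3 := one_le_y0 x
  have h4 := y0_le hx
  have h5 := Y_le X x
  have h6 := Y_nonneg (kp X) x
  have h7 := kp_pos X
  set y := Y (kp X) x
  set y0 := Real.sqrt (1 + x ^ 2)
  set k := kp X
  set Dd := w a (-(3 + d)) x - v a (-(3 + d)) X x
  have hs : 0 < y0 + y := by linarith
  have e1 : Dd = k * ((a + -(3 + d) * x ^ 2 + (1 + x ^ 2) + y0 * y + y ^ 2) / (y0 + y)) := by
    rw [← mul_div_assoc, eq_div_iff hs.ne']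
    exact h0
  rw [e1]
  apply mul_le_mul_of_nonneg_left _ h7.le
  rw [div_le_iff₀ hs]
  have hy1 : y0 * y ≤ y0 ^ 2 := by nlinarith
  have hy2 : y ^ 2 ≤ y0 ^ 2 := by nlinarith
  have e2 : (x - 1) * (y0 + y) ≤ 2 * x ^ 2 := by
    by_cases hx1 : x ≤ 1
    · have : (x - 1) * (y0 + y) ≤ 0 := mul_nonpos_of_nonpos_of_nonneg (by linarith) hs.le
      nlinarith [sq_nonneg x]
    · push Not at hx1
      have : (x - 1) * (y0 + y) ≤ (x - 1) * (2 * (1 + x)) :=
        mul_le_mul_of_nonneg_left (by linarith) (by linarith)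
      nlinarith
  have e3 : (a + 3) * 1 ≤ (a + 3) * (y0 + y) :=
    mul_le_mul_of_nonneg_left (by linarith) (by linarith)
  have e4 : d * ((x - 1) * (y0 + y)) ≤ d * (2 * x ^ 2) := mul_le_mul_of_nonneg_left e2 hd
  nlinarith

end Pool.Agent.W730.HC
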