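import Pool.Agent.W730.HCA

open Set Topology Filter MeasureTheory

namespace Pool.Agent.W730.HC

open Pool.Agent.W960.HC

theorem kp_le (X : ℝ) : kp X ≤ 2 / (1 + X ^ 2) := by
  have h := Real.quadratic_le_exp_of_nonneg (sq_nonneg X)
  have hE : Real.exp (-X ^ 2) * Real.exp (X ^ 2) = 1 := by
    rw [← Real.exp_add]; simp
  have h0 := Real.exp_pos (-X ^ 2)
  rw [le_div_iff₀ (by positivity)]
  unfold kp
  nlinarith [sq_nonneg X, mul_le_mul_of_nonneg_left h h0.le, sq_nonneg (X ^ 2)]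

theorem kp_mul_le {X : ℝ} (hX : 1 ≤ X) : kp X * X ^ 3 ≤ 48 / X := by
  have h := Real.pow_div_factorial_le_exp (X ^ 2) (sq_nonneg X) 4
  have hE : Real.exp (-X ^ 2) * Real.exp (X ^ 2) = 1 := by
    rw [← Real.exp_add]; simp
  have h0 := Real.exp_pos (-X ^ 2)
  have h1 : Real.exp (-X ^ 2) * (X ^ 8) ≤ 24 := by
    have h2 := mul_le_mul_of_nonneg_left h h0.le
    rw [hE] at h2
    have : ((4 : ℕ).factorial : ℝ) = 24 := by norm_num [Nat.factorial]
    rw [this] at h2
    have e : (X ^ 2) ^ 4 = X ^ 8 := by ring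
    rw [e] at h2
    linarith
  rw [le_div_iff₀ (by linarith)]
  unfold kp
  have h3 : (1 + X ^ 2) * X ^ 4 ≤ 2 * X ^ 8 := by
    have h4 : 1 ≤ X ^ 2 := by nlinarith
    have h5 : X ^ 2 ≤ X ^ 4 := by nlinarith
    have h6 : (1 + X ^ 2) * X ^ 4 ≤ (2 * X ^ 4) * X ^ 4 :=
      mul_le_mul_of_nonneg_right (by linarith) (by positivity)
    calc _ ≤ _ := h6
      _ = _ := by ring
  calc Real.exp (-X ^ 2) * (1 + X ^ 2) * X ^ 3 * X
      = Real.exp (-X ^ 2) * ((1 + X ^ 2) * X ^ 4) := by ring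
    _ ≤ Real.exp (-X ^ 2) * (2 * X ^ 8) := mul_le_mul_of_nonneg_left h3 h0.le
    _ ≤ 48 := by linarith

theorem tendsto_kp : Tendsto kp atTop (𝓝 0) := by
  have h1 : Tendsto (fun X : ℝ => 2 / (1 + X ^ 2)) atTop (𝓝 0) := by
    apply Tendsto.div_atTop tendsto_const_nhds
    exact tendsto_atTop_add_const_left _ _ (tendsto_pow_atTop (by norm_num))
  exact squeeze_zero (fun X => (kp_pos X).le) kp_le h1

theorem exp_le_kp (X : ℝ) : Real.exp (-X ^ 2) ≤ kp X := by
  unfold kp
  have := Real.exp_pos (-X ^ 2)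
  nlinarith [sq_nonneg X]

theorem tendsto_exp : Tendsto (fun X : ℝ => Real.exp (-X ^ 2)) atTop (𝓝 0) :=
  squeeze_zero (fun X => (Real.exp_pos _).le) exp_le_kp tendsto_kp

theorem integrableOn_aux :
    IntegrableOn (fun x : ℝ => 2 * x ^ 3 * Real.exp (-x ^ 2)) (Ioi 0) := by
  have h := integrableOn_Ioi_deriv_of_nonpos' (g := kp)
    (g' := fun x => -(2 * x ^ 3 * Real.exp (-x ^ 2))) (a := 0) (l := 0)
    (fun x _ => hasDerivAt_kp x) (fun x hx => by
      have : (0:ℝ) < x := hx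
      have : 0 ≤ 2 * x ^ 3 * Real.exp (-x ^ 2) := by positivity
      linarith) tendsto_kp
  have := h.neg
  simpa using this

theorem integral_tail {X : ℝ} (hX : 0 ≤ X) :
    ∫ x in Ioi X, 2 * x ^ 3 * Real.exp (-x ^ 2) = kp X := by
  have h := integral_Ioi_of_hasDerivAt_of_nonpos' (g := kp)
    (g' := fun x => -(2 * x ^ 3 * Real.exp (-x ^ 2))) (a := X) (l := 0)
    (fun x _ => hasDerivAt_kp x) (fun x hx => by
      have : X < x := hx
      have : (0:ℝ) < x := by linarith
      have : 0 ≤ 2 * x ^ 3 * Real.exp (-x ^ 2) := by positivity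
      linarith) tendsto_kp
  rw [integral_neg] at h
  linarith

theorem hasDerivAt_exp (X : ℝ) :
    HasDerivAt (fun x : ℝ => Real.exp (-x ^ 2)) (-(2 * X * Real.exp (-X ^ 2))) X := by
  have h1 : HasDerivAt (fun x : ℝ => -x ^ 2) (-(2 * X)) X := by
    have := (hasDerivAt_pow 2 X).fun_neg
    simpa using this
  have h2 := h1.exp
  have e : Real.exp (-X ^ 2) * -(2 * X) = -(2 * X * Real.exp (-X ^ 2)) := by ring
  rw [← e]
  exact h2

theorem integrableOn_aux2 :
    IntegrableOn (fun x : ℝ => 2 * x * Real.exp (-x ^ 2)) (Ioi 0) := by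
  have h := integrableOn_Ioi_deriv_of_nonpos' (g := fun x : ℝ => Real.exp (-x ^ 2))
    (g' := fun x => -(2 * x * Real.exp (-x ^ 2))) (a := 0) (l := 0)
    (fun x _ => hasDerivAt_exp x) (fun x hx => by
      have : (0:ℝ) < x := hx
      have : 0 ≤ 2 * x * Real.exp (-x ^ 2) := by positivity
      linarith) tendsto_exp
  have := h.neg
  simpa using this

theorem integrableOn_gauss : IntegrableOn (fun x : ℝ => Real.exp (-x ^ 2)) (Ioi 0) := by
  have := (integrable_exp_neg_mul_sq (b := 1) one_pos).integrableOn (s := Ioi 0)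
  simpa using this

theorem integrableOn_w (a c : ℝ) : IntegrableOn (w a c) (Ioi 0) := by
  have h := ((integrableOn_gauss.add integrableOn_aux).add integrableOn_aux2).const_mul
    (|a + 1| + |c + 1|)
  refine Integrable.mono' h (continuous_w a c).aestronglyMeasurable ?_
  refine (ae_restrict_iff' measurableSet_Ioi).2 (Eventually.of_forall fun x hx => ?_)
  have hx0 : (0:ℝ) < x := hx
  have h1 := y0_le hx0.le
  have h2 : |a + c * x ^ 2 + (1 + x ^ 2)| ≤ (|a + 1| + |c + 1|) * (1 + x ^ 2) := by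
    have e : a + c * x ^ 2 + (1 + x ^ 2) = (a + 1) + (c + 1) * x ^ 2 := by ring
    rw [e]
    calc |(a + 1) + (c + 1) * x ^ 2| ≤ |a + 1| + |(c + 1) * x ^ 2| := abs_add_le _ _
      _ = |a + 1| + |c + 1| * x ^ 2 := by rw [abs_mul, abs_of_nonneg (sq_nonneg x)]
      _ ≤ _ := by nlinarith [abs_nonneg (a + 1), abs_nonneg (c + 1), sq_nonneg x]
  have h3 : 0 < Real.exp (-x ^ 2) := Real.exp_pos _
  have h4 : 0 ≤ Real.sqrt (1 + x ^ 2) := Real.sqrt_nonneg _
  set K := |a + 1| + |c + 1|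
  have hK : 0 ≤ K := by positivity
  unfold w
  rw [Real.norm_eq_abs, abs_mul, abs_mul, abs_of_pos h3, abs_of_nonneg h4]
  have h5 : Real.sqrt (1 + x ^ 2) * |a + c * x ^ 2 + (1 + x ^ 2)| ≤
      (1 + x) * (K * (1 + x ^ 2)) :=
    mul_le_mul h1 h2 (abs_nonneg _) (by linarith)
  have h6 : (1 + x) * (K * (1 + x ^ 2)) ≤ K * (1 + 2 * x ^ 3 + 2 * x) := by
    have : (1 + x) * (1 + x ^ 2) ≤ 1 + 2 * x ^ 3 + 2 * x := by nlinarith [sq_nonneg (x - 1)]
    calc (1 + x) * (K * (1 + x ^ 2)) = K * ((1 + x) * (1 + x ^ 2)) := by ring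
      _ ≤ _ := mul_le_mul_of_nonneg_left this hK
  calc Real.exp (-x ^ 2) * Real.sqrt (1 + x ^ 2) * |a + c * x ^ 2 + (1 + x ^ 2)|
      = Real.exp (-x ^ 2) * (Real.sqrt (1 + x ^ 2) * |a + c * x ^ 2 + (1 + x ^ 2)|) := by ring
    _ ≤ Real.exp (-x ^ 2) * (K * (1 + 2 * x ^ 3 + 2 * x)) :=
        mul_le_mul_of_nonneg_left (h5.trans h6) h3.le
    _ = _ := by simp only [Pi.add_apply]; ring

/-- value at `κ = 0` -/
noncomputable def F0 (a c : ℝ) : ℝ := ∫ x in Ioi (0:ℝ), w a c x

noncomputable def B0 : ℝ := F0 0 (-1)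
noncomputable def B1 : ℝ := F0 (-1) 0

theorem F0_eq (a c : ℝ) : F0 a c = (a + 1) * B0 + (c + 1) * B1 := by
  unfold B0 B1 F0
  rw [← integral_const_mul, ← integral_const_mul, ← integral_add]
  · congr 1
    ext x
    unfold w
    ring
  · exact (integrableOn_w 0 (-1)).const_mul _
  · exact (integrableOn_w (-1) 0).const_mul _

theorem B0_pos : 0 < B0 := by
  have h1 : ∫ x in Ioi (0:ℝ), Real.exp (-x ^ 2) ≤ B0 := by
    unfold B0 F0
    refine setIntegral_mono_on integrableOn_gauss (integrableOn_w 0 (-1)) measurableSet_Ioi ?_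
    intro x _
    have h2 := one_le_y0 x
    have h3 : 0 < Real.exp (-x ^ 2) := Real.exp_pos _
    unfold w
    nlinarith
  have h2 : 0 < ∫ x in Ioi (0:ℝ), Real.exp (-x ^ 2) := by
    have := integral_gaussian_Ioi 1
    simp only [neg_mul, one_mul, div_one] at this
    rw [this]
    positivity
  linarith

theorem B1_nonneg : 0 ≤ B1 := by
  unfold B1 F0
  refine setIntegral_nonneg measurableSet_Ioi fun x _ => ?_
  unfold w
  have h2 := one_le_y0 x
  have h3 : 0 < Real.exp (-x ^ 2) := Real.exp_pos _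
  have : -1 + 0 * x ^ 2 + (1 + x ^ 2) = x ^ 2 := by ring
  rw [this]
  positivity

theorem B0_lt : B0 < 2 * B1 := by
  set g : ℝ → ℝ := fun x => x ^ 2 * Real.exp (-x ^ 2) / Real.sqrt (1 + x ^ 2) with hg
  have hgc : Continuous g := by
    refine Continuous.div (by fun_prop) (by fun_prop) fun x => ?_
    have := one_le_y0 x
    positivity
  have hgi : IntegrableOn g (Ioi 0) := by
    refine Integrable.mono' (integrableOn_w (-1) 0) hgc.aestronglyMeasurable ?_
    refine (ae_restrict_iff' measurableSet_Ioi).2 (Eventually.of_forall fun x hx => ?_)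
    have h2 := one_le_y0 x
    have h3 : 0 < Real.exp (-x ^ 2) := Real.exp_pos _
    have h4 : 0 ≤ x ^ 2 * Real.exp (-x ^ 2) := by positivity
    rw [hg]
    simp only
    rw [Real.norm_eq_abs, abs_of_nonneg (by positivity)]
    unfold w
    rw [div_le_iff₀ (by linarith)]
    have : (-1 : ℝ) + 0 * x ^ 2 + (1 + x ^ 2) = x ^ 2 := by ring
    rw [this]
    have h5 : 1 ≤ Real.sqrt (1 + x ^ 2) * Real.sqrt (1 + x ^ 2) := by nlinarith
    calc x ^ 2 * Real.exp (-x ^ 2) = x ^ 2 * Real.exp (-x ^ 2) * 1 := by ring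
      _ ≤ x ^ 2 * Real.exp (-x ^ 2) * (Real.sqrt (1 + x ^ 2) * Real.sqrt (1 + x ^ 2)) :=
          mul_le_mul_of_nonneg_left h5 h4
      _ = _ := by ring
  have hd : ∀ x ∈ Ici (0:ℝ), HasDerivAt
      (fun x : ℝ => -(x * Real.exp (-x ^ 2) * Real.sqrt (1 + x ^ 2))) (w (-2) 1 x - g x) x := by
    intro x _
    have h1 := (hasDerivAt_id x).mul (hasDerivAt_exp x)
    have h2 : HasDerivAt (fun x : ℝ => 1 + x ^ 2) (2 * x) x := by
      have := (hasDerivAt_pow 2 x).const_add 1
      simpa using this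
    have h3 := h2.sqrt (by positivity)
    have h4 := (h1.mul h3).neg
    have h5 := y0_sq x
    have h6 := one_le_y0 x
    have e : w (-2) 1 x - g x =
        (-((1 * Real.exp (-x ^ 2) + id x * -(2 * x * Real.exp (-x ^ 2))) * √(1 + x ^ 2) +
        (x * Real.exp (-x ^ 2)) * (2 * x / (2 * √(1 + x ^ 2))))) := by
      rw [hg]
      unfold w
      simp only [id]
      set y0 := Real.sqrt (1 + x ^ 2)
      have h7 : y0 ≠ 0 := by positivity
      field_simp
      ring
    rw [e]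
    exact h4
  have hlim : Tendsto (fun x : ℝ => -(x * Real.exp (-x ^ 2) * Real.sqrt (1 + x ^ 2))) atTop
      (𝓝 0) := by
    have h1 : Tendsto (fun x : ℝ => 2 * kp x) atTop (𝓝 0) := by
      simpa using tendsto_kp.const_mul 2
    rw [← neg_zero]
    apply Tendsto.neg
    refine tendsto_of_tendsto_of_tendsto_of_le_of_le' tendsto_const_nhds h1 ?_ ?_
    · filter_upwards [eventually_ge_atTop 0] with x hx
      positivity
    · filter_upwards [eventually_ge_atTop 0] with x hx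
      have h2 := y0_le hx
      have h3 : 0 < Real.exp (-x ^ 2) := Real.exp_pos _
      unfold kp
      have h4 : x * Real.sqrt (1 + x ^ 2) ≤ 2 * (1 + x ^ 2) := by
        have : x * Real.sqrt (1 + x ^ 2) ≤ x * (1 + x) := mul_le_mul_of_nonneg_left h2 hx
        nlinarith [sq_nonneg (x - 1)]
      calc x * Real.exp (-x ^ 2) * Real.sqrt (1 + x ^ 2)
          = Real.exp (-x ^ 2) * (x * Real.sqrt (1 + x ^ 2)) := by ring
        _ ≤ Real.exp (-x ^ 2) * (2 * (1 + x ^ 2)) := mul_le_mul_of_nonneg_left h4 h3.le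
        _ = _ := by ring
  have h := integral_Ioi_of_hasDerivAt_of_tendsto' hd ((integrableOn_w (-2) 1).sub hgi) hlim
  rw [integral_sub (integrableOn_w (-2) 1) hgi] at h
  have h1 : F0 (-2) 1 = -B0 + 2 * B1 := by rw [F0_eq]; ring
  have h2 : 0 < ∫ x in Ioi (0:ℝ), g x := by
    have h3 : ∫ x in Ioc (0:ℝ) 1, g x ≤ ∫ x in Ioi (0:ℝ), g x := by
      refine setIntegral_mono_set hgi ?_ (Ioc_subset_Ioi_self.eventuallyLE)
      refine Eventually.of_forall fun x => ?_
      simp only [Pi.zero_apply, hg]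
      positivity
    have h4 : 0 < ∫ x in (0:ℝ)..1, g x := by
      refine intervalIntegral.intervalIntegral_pos_of_pos_on (hgc.intervalIntegrable _ _) ?_
        zero_lt_one
      intro x hx
      have : 0 < x := hx.1
      have := one_le_y0 x
      simp only [hg]
      positivity
    rw [intervalIntegral.integral_of_le zero_le_one] at h4
    linarith
  have h5 : F0 (-2) 1 = ∫ x in Ioi (0:ℝ), w (-2) 1 x := rfl
  rw [← h5, h1] at h
  simp at h
  linarith

end Pool.Agent.W730.HC
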