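import Pool.Agent.W730.HCA2

open Set Topology Filter MeasureTheory

namespace Pool.Agent.W730.HC

open Pool.Agent.W960.HC

theorem kp_strictAnti {x X : ℝ} (hx : 0 ≤ x) (h : x < X) : kp X < kp x := by
  have : StrictAntiOn kp (Ici 0) := by
    refine strictAntiOn_of_deriv_neg (convex_Ici 0) continuous_kp.continuousOn ?_
    intro x hx
    rw [interior_Ici] at hx
    rw [(hasDerivAt_kp x).deriv]
    have : 0 < x := hx
    have : 0 < 2 * x ^ 3 * Real.exp (-x ^ 2) := by positivity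
    linarith
  exact this hx (hx.trans h.le) h

theorem Y_pos {x X : ℝ} (hx : 0 ≤ x) (h : x < X) : 0 < Y (kp X) x := by
  unfold Y
  rw [Real.sqrt_pos]
  have h1 := kp_strictAnti hx h
  have h2 : kp x * Real.exp (x ^ 2) = 1 + x ^ 2 := by
    unfold kp
    have : Real.exp (-x ^ 2) * Real.exp (x ^ 2) = 1 := by
      rw [← Real.exp_add]; simp
    linear_combination (1 + x ^ 2) * this
  have h3 : kp X * Real.exp (x ^ 2) < kp x * Real.exp (x ^ 2) :=
    mul_lt_mul_of_pos_right h1 (Real.exp_pos _)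
  linarith

theorem Mel_eq (a c X : ℝ) : Mel a c X = ∫ x in (0:ℝ)..X, v a c X x := rfl

/-- positivity for small `X` -/
theorem Mel_pos_small {a d X : ℝ} (ha : 0 < a) (hd : 0 ≤ d) (hX : 0 < X)
    (h : (3 + d) * X ^ 2 ≤ a) : 0 < Mel a (-(3 + d)) X := by
  rw [Mel_eq]
  refine intervalIntegral.intervalIntegral_pos_of_pos_on
    ((continuous_v _ _ _).intervalIntegrable _ _) ?_ hX
  intro x hx
  have h1 := Y_pos hx.1.le hx.2
  have h2 : (3 + d) * x ^ 2 ≤ (3 + d) * X ^ 2 := by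
    apply mul_le_mul_of_nonneg_left _ (by linarith)
    have := hx.1
    have := hx.2
    nlinarith
  unfold v
  have h3 : 0 < Real.exp (-x ^ 2) := Real.exp_pos _
  have h4 : 0 < a + -(3 + d) * x ^ 2 + Y (kp X) x ^ 2 := by
    have : 0 < Y (kp X) x ^ 2 := by positivity
    linarith
  positivity

theorem sub_Mel (a c : ℝ) {X : ℝ} (hX : 0 ≤ X) : F0 a c - Mel a c X =
    (∫ x in (0:ℝ)..X, (w a c x - v a c X x)) + ∫ x in Ioi X, w a c x := by
  have h1 : F0 a c = (∫ x in (0:ℝ)..X, w a c x) + ∫ x in Ioi X, w a c x := by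
    unfold F0
    rw [intervalIntegral.integral_of_le hX, ← setIntegral_union (Ioc_disjoint_Ioi le_rfl)
      measurableSet_Ioi, Ioc_union_Ioi_eq_Ioi hX]
    · exact (integrableOn_w a c).mono_set Ioc_subset_Ioi_self
    · exact (integrableOn_w a c).mono_set (Ioi_subset_Ioi hX)
  rw [intervalIntegral.integral_sub ((continuous_w a c).intervalIntegrable _ _)
    ((continuous_v a c X).intervalIntegrable _ _), h1, Mel_eq]
  ring

theorem tail_lower {a d X : ℝ} (ha : 0 ≤ a) (hd : 0 ≤ d) (hX : 1 ≤ X) :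
    -((2 + d) * kp X) ≤ ∫ x in Ioi X, w a (-(3 + d)) x := by
  rw [← integral_tail (by linarith : 0 ≤ X), ← integral_const_mul, ← integral_neg]
  have h0 : IntegrableOn (fun x : ℝ => 2 * x ^ 3 * Real.exp (-x ^ 2)) (Ioi X) :=
    integrableOn_aux.mono_set (Ioi_subset_Ioi (by linarith))
  refine setIntegral_mono_on (h0.const_mul (2 + d)).neg
    ((integrableOn_w _ _).mono_set (Ioi_subset_Ioi (by linarith))) measurableSet_Ioi ?_
  intro x hx
  have hx1 : 1 < x := lt_of_le_of_lt hX hx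
  have h1 : Real.sqrt (1 + x ^ 2) ≤ 2 * x := by
    rw [Real.sqrt_le_left (by linarith)]
    nlinarith
  have h2 : 0 ≤ Real.sqrt (1 + x ^ 2) := Real.sqrt_nonneg _
  have h3 : 0 < Real.exp (-x ^ 2) := Real.exp_pos _
  unfold w
  set y0 := Real.sqrt (1 + x ^ 2)
  set E := Real.exp (-x ^ 2)
  have h4 : 0 ≤ E * y0 * (a + 1) := by positivity
  have h5 : E * y0 * ((2 + d) * x ^ 2) ≤ E * (2 * x) * ((2 + d) * x ^ 2) := by
    apply mul_le_mul_of_nonneg_right _ (by positivity)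
    exact mul_le_mul_of_nonneg_left h1 h3.le
  have e : E * y0 * (a + -(3 + d) * x ^ 2 + (1 + x ^ 2)) =
      E * y0 * (a + 1) - E * y0 * ((2 + d) * x ^ 2) := by ring
  rw [e]
  have e2 : (2 + d) * (2 * x ^ 3 * E) = E * (2 * x) * ((2 + d) * x ^ 2) := by ring
  rw [e2]
  linarith

theorem tail_upper {a d X : ℝ} (hd : 0 ≤ d) (hX : 0 ≤ X) (h : a + 1 ≤ (2 + d) * X ^ 2) :
    ∫ x in Ioi X, w a (-(3 + d)) x ≤ 0 := by
  refine setIntegral_nonpos measurableSet_Ioi fun x hx => ?_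
  have hx1 : X < x := hx
  have h2 : 0 ≤ Real.sqrt (1 + x ^ 2) := Real.sqrt_nonneg _
  have h3 : 0 < Real.exp (-x ^ 2) := Real.exp_pos _
  have h4 : (2 + d) * X ^ 2 ≤ (2 + d) * x ^ 2 := by
    apply mul_le_mul_of_nonneg_left _ (by linarith)
    nlinarith
  unfold w
  apply mul_nonpos_of_nonneg_of_nonpos (by positivity)
  linarith

theorem key_le {x : ℝ} (hx : 0 ≤ x) : Real.exp (x ^ 2) / Real.sqrt (1 + x ^ 2) ≤
    2 * x ^ 3 * Real.exp (x ^ 2) / (1 + x ^ 2) ^ 2 + 9 := by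
  have h1 := one_le_y0 x
  have h2 : 0 < Real.exp (x ^ 2) := Real.exp_pos _
  by_cases hx2 : x ^ 2 ≤ 2
  · have h3 : Real.exp (x ^ 2) ≤ 9 := by
      have h4 : Real.exp (x ^ 2) ≤ Real.exp 2 := Real.exp_le_exp.2 hx2
      have h5 : Real.exp 2 = Real.exp 1 * Real.exp 1 := by
        rw [← Real.exp_add]; norm_num
      have h6 := Real.exp_one_lt_d9
      have h7 := Real.exp_pos 1
      nlinarith
    have h4 : Real.exp (x ^ 2) / Real.sqrt (1 + x ^ 2) ≤ 9 := by
      rw [div_le_iff₀ (by linarith)]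
      nlinarith
    have h5 : 0 ≤ 2 * x ^ 3 * Real.exp (x ^ 2) / (1 + x ^ 2) ^ 2 := by positivity
    linarith
  · push Not at hx2
    have h3 : (1 + x ^ 2) ^ 2 ≤ 2 * x ^ 3 * Real.sqrt (1 + x ^ 2) := by
      have h4 := y0_sq x
      have h5 : ((1 + x ^ 2) ^ 2) ^ 2 ≤ (2 * x ^ 3 * Real.sqrt (1 + x ^ 2)) ^ 2 := by
        have e : (2 * x ^ 3 * Real.sqrt (1 + x ^ 2)) ^ 2 = 4 * x ^ 6 * (1 + x ^ 2) := by
          rw [mul_pow, h4]; ring
        rw [e]
        obtain ⟨s, hs⟩ : ∃ s, s = x ^ 2 := ⟨_, rfl⟩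
        have e6 : x ^ 6 = s ^ 3 := by rw [hs]; ring
        rw [e6, ← hs]
        rw [← hs] at hx2
        have : (1 + s) ^ 3 ≤ 4 * s ^ 3 := by nlinarith [sq_nonneg (s - 2), mul_pos (by linarith : 0 < s - 2) (by linarith : 0 < s)]
        calc ((1 + s) ^ 2) ^ 2 = (1 + s) ^ 3 * (1 + s) := by ring
          _ ≤ 4 * s ^ 3 * (1 + s) := mul_le_mul_of_nonneg_right this (by linarith)
      exact le_of_sq_le_sq h5 (by positivity)
    have h6 : Real.exp (x ^ 2) / Real.sqrt (1 + x ^ 2) ≤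
        2 * x ^ 3 * Real.exp (x ^ 2) / (1 + x ^ 2) ^ 2 := by
      rw [div_le_div_iff₀ (by linarith) (by positivity)]
      calc Real.exp (x ^ 2) * (1 + x ^ 2) ^ 2 ≤
          Real.exp (x ^ 2) * (2 * x ^ 3 * Real.sqrt (1 + x ^ 2)) :=
            mul_le_mul_of_nonneg_left h3 h2.le
        _ = _ := by ring
    linarith

theorem hasDerivAt_FF {x : ℝ} : HasDerivAt (fun x : ℝ => Real.exp (x ^ 2) / (1 + x ^ 2))
    (2 * x ^ 3 * Real.exp (x ^ 2) / (1 + x ^ 2) ^ 2) x := by
  have h1 : HasDerivAt (fun x : ℝ => x ^ 2) (2 * x) x := by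
    simpa using hasDerivAt_pow 2 x
  have h2 : HasDerivAt (fun x : ℝ => 1 + x ^ 2) (2 * x) x := by
    simpa using (hasDerivAt_pow 2 x).const_add 1
  have h3 := h1.exp.div h2 (by positivity)
  have e : 2 * x ^ 3 * Real.exp (x ^ 2) / (1 + x ^ 2) ^ 2 =
      (Real.exp (x ^ 2) * (2 * x) * (1 + x ^ 2) - Real.exp (x ^ 2) * (2 * x)) /
        (1 + x ^ 2) ^ 2 := by ring
  rw [e]
  exact h3

/-- `c = -3` -/
theorem main_lower {a X : ℝ} (ha : 0 ≤ a) (hX : 1 ≤ X) :
    kp X * ((a + 3) / 2 * Real.log (1 + X) - 22) ≤ F0 a (-3) - Mel a (-3) X := by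
  have hX0 : 0 ≤ X := by linarith
  rw [sub_Mel a (-3) hX0]
  have ht := tail_lower (d := 0) ha le_rfl hX
  have e0 : -(3 + (0:ℝ)) = -3 := by norm_num
  rw [e0] at ht
  set P : ℝ → ℝ := fun x => kp X * ((a + 3) / 2 * Real.log (1 + x) -
    2 * (kp X * (Real.exp (x ^ 2) / (1 + x ^ 2) + 9 * x))) with hP
  set P' : ℝ → ℝ := fun x => kp X * ((a + 3) / 2 * (1 / (1 + x)) -
    2 * (kp X * (2 * x ^ 3 * Real.exp (x ^ 2) / (1 + x ^ 2) ^ 2 + 9))) with hP'
  have hd : ∀ x ∈ uIcc (0:ℝ) X, HasDerivAt P (P' x) x := by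
    intro x hx
    rw [uIcc_of_le hX0] at hx
    have h1 : HasDerivAt (fun x : ℝ => 1 + x) 1 x := (hasDerivAt_id x).const_add 1
    have h2 := h1.log (by have := hx.1; positivity)
    have h3 : HasDerivAt (fun x : ℝ => 9 * x) 9 x := by
      simpa using (hasDerivAt_id x).const_mul 9
    exact ((h2.const_mul ((a + 3) / 2)).sub
      (((hasDerivAt_FF.add h3).const_mul (kp X)).const_mul 2)).const_mul (kp X)
  have hc : ContinuousOn P' (uIcc (0:ℝ) X) := by
    rw [uIcc_of_le hX0, hP']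
    refine ContinuousOn.mul continuousOn_const (ContinuousOn.sub (ContinuousOn.mul
      continuousOn_const (ContinuousOn.div continuousOn_const (by fun_prop) ?_)) ?_)
    · intro x hx
      have := hx.1
      positivity
    · refine Continuous.continuousOn ?_
      refine Continuous.mul continuous_const (Continuous.mul continuous_const
        (Continuous.add (Continuous.div (by fun_prop) (by fun_prop) fun x => ?_)
          continuous_const))
      positivity
  have hI := intervalIntegral.integral_eq_sub_of_hasDerivAt hd hc.intervalIntegrable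
  have hle : ∫ x in (0:ℝ)..X, P' x ≤ ∫ x in (0:ℝ)..X, (w a (-3) x - v a (-3) X x) := by
    refine intervalIntegral.integral_mono_on hX0 hc.intervalIntegrable
      (((continuous_w _ _).sub (continuous_v _ _ _)).intervalIntegrable _ _) ?_
    intro x hx
    refine le_trans ?_ (diff_lower ha hx.1 hx.2)
    rw [hP']
    apply mul_le_mul_of_nonneg_left _ (kp_pos X).le
    have h1 := mul_le_mul_of_nonneg_left (key_le hx.1) (kp_pos X).le
    have h2 : (a + 3) / (2 * (1 + x)) = (a + 3) / 2 * (1 / (1 + x)) := by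
      have := hx.1
      have : (1 + x) ≠ 0 := by positivity
      field_simp
    rw [h2]
    linarith
  have hE : Real.exp (-X ^ 2) * Real.exp (X ^ 2) = 1 := by
    rw [← Real.exp_add]; simp
  have hF : kp X * (Real.exp (X ^ 2) / (1 + X ^ 2)) = 1 := by
    unfold kp
    have : (1 + X ^ 2) ≠ 0 := by positivity
    field_simp
    linear_combination hE
  have hkX : kp X * (9 * X) ≤ 9 := by
    have h1 := kp_le X
    have h2 : kp X * (9 * X) ≤ 2 / (1 + X ^ 2) * (9 * X) :=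
      mul_le_mul_of_nonneg_right h1 (by positivity)
    have h3 : 2 / (1 + X ^ 2) * (9 * X) ≤ 9 := by
      rw [div_mul_eq_mul_div, div_le_iff₀ (by positivity)]
      nlinarith [sq_nonneg (X - 1)]
    linarith
  have hP0 : P 0 ≤ 0 := by
    rw [hP]
    simp only
    have h1 := kp_pos X
    have h2 : Real.log (1 + 0) = 0 := by simp
    rw [h2]
    have h3 : 0 ≤ kp X * (Real.exp ((0:ℝ) ^ 2) / (1 + (0:ℝ) ^ 2) + 9 * 0) := by positivity
    apply mul_nonpos_of_nonneg_of_nonpos h1.le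
    linarith
  have hPX : kp X * ((a + 3) / 2 * Real.log (1 + X) - 20) ≤ P X := by
    rw [hP]
    simp only
    apply mul_le_mul_of_nonneg_left _ (kp_pos X).le
    have : kp X * (Real.exp (X ^ 2) / (1 + X ^ 2) + 9 * X) =
      kp X * (Real.exp (X ^ 2) / (1 + X ^ 2)) + kp X * (9 * X) := by ring
    rw [this, hF]
    linarith
  have e3 : kp X * ((a + 3) / 2 * Real.log (1 + X) - 22) =
    kp X * ((a + 3) / 2 * Real.log (1 + X) - 20) - 2 * kp X := by ring
  rw [e3]
  linarith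

theorem main_upper {a d X : ℝ} (ha : 0 ≤ a) (hd : 0 ≤ d) (hX : 0 ≤ X)
    (h : a + 1 ≤ (2 + d) * X ^ 2) :
    F0 a (-(3 + d)) - Mel a (-(3 + d)) X ≤ kp X * ((a + 3) * X - d * (X ^ 2 / 2 - X) / 2) := by
  rw [sub_Mel a _ hX]
  have ht := tail_upper hd hX h
  set P : ℝ → ℝ := fun x => kp X * ((a + 3) * x - d * (x ^ 2 / 2 - x) / 2) with hP
  set P' : ℝ → ℝ := fun x => kp X * ((a + 3) - d * (x - 1) / 2) with hP'
  have hder : ∀ x ∈ uIcc (0:ℝ) X, HasDerivAt P (P' x) x := by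
    intro x hx
    have h1 : HasDerivAt (fun x : ℝ => (a + 3) * x) (a + 3) x := by
      simpa using (hasDerivAt_id x).const_mul (a + 3)
    have h2 : HasDerivAt (fun x : ℝ => x ^ 2 / 2 - x) (x - 1) x := by
      have h3 := ((hasDerivAt_pow 2 x).div_const 2).sub (hasDerivAt_id x)
      have e : x - 1 = (2:ℕ) * x ^ (2 - 1) / 2 - 1 := by norm_num
      rw [e]
      exact h3
    exact (h1.sub ((h2.const_mul d).div_const 2)).const_mul (kp X)
  have hc : Continuous P' := by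
    rw [hP']
    fun_prop
  have hI := intervalIntegral.integral_eq_sub_of_hasDerivAt hder (hc.intervalIntegrable _ _)
  have hle : ∫ x in (0:ℝ)..X, (w a (-(3 + d)) x - v a (-(3 + d)) X x) ≤
      ∫ x in (0:ℝ)..X, P' x := by
    refine intervalIntegral.integral_mono_on hX
      (((continuous_w _ _).sub (continuous_v _ _ _)).intervalIntegrable _ _)
      (hc.intervalIntegrable _ _) ?_
    intro x hx
    exact diff_upper ha hd hx.1 hx.2
  have hP0 : P 0 = 0 := by
    rw [hP]; simp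
  have hPX : P X = kp X * ((a + 3) * X - d * (X ^ 2 / 2 - X) / 2) := rfl
  linarith

theorem main_cont {a d X : ℝ} (ha : 0 ≤ a) (hd : 0 ≤ d) (hX : 1 ≤ X) :
    -((5 + 2 * d) * (48 / X)) ≤ F0 a (-(3 + d)) - Mel a (-(3 + d)) X := by
  have hX0 : 0 ≤ X := by linarith
  rw [sub_Mel a _ hX0]
  have ht := tail_lower ha hd hX
  have hle : ∫ x in (0:ℝ)..X, kp X * (-((3 + d) * X ^ 2)) ≤
      ∫ x in (0:ℝ)..X, (w a (-(3 + d)) x - v a (-(3 + d)) X x) := by
    refine intervalIntegral.integral_mono_on hX0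
      (continuous_const.intervalIntegrable _ _)
      (((continuous_w _ _).sub (continuous_v _ _ _)).intervalIntegrable _ _) ?_
    intro x hx
    refine le_trans ?_ (diff_lower' ha hd hx.1 hx.2)
    apply mul_le_mul_of_nonneg_left _ (kp_pos X).le
    apply neg_le_neg
    apply mul_le_mul_of_nonneg_left _ (by linarith)
    have := hx.1
    have := hx.2
    nlinarith
  rw [intervalIntegral.integral_const] at hle
  simp only [sub_zero, smul_eq_mul] at hle
  have h1 := kp_mul_le hX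
  have h2 := kp_pos X
  have h3 : kp X ≤ kp X * X ^ 3 := by
    have : 1 ≤ X ^ 3 := one_le_pow₀ hX
    nlinarith
  have h4 : X * (kp X * (-((3 + d) * X ^ 2))) = -((3 + d) * (kp X * X ^ 3)) := by ring
  rw [h4] at hle
  have h5 : (3 + d) * (kp X * X ^ 3) ≤ (3 + d) * (48 / X) :=
    mul_le_mul_of_nonneg_left h1 (by linarith)
  have h6 : (2 + d) * kp X ≤ (2 + d) * (48 / X) :=
    mul_le_mul_of_nonneg_left (h3.trans h1) (by linarith)
  linarith

theorem Mel_affine (X : ℝ) : ∃ I0 I1 I3 : ℝ, ∀ a c : ℝ, Mel a c X = a * I0 + c * I1 + I3 := by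
  refine ⟨∫ x in (0:ℝ)..X, Real.exp (-x ^ 2) * Y (kp X) x,
    ∫ x in (0:ℝ)..X, Real.exp (-x ^ 2) * Y (kp X) x * x ^ 2,
    ∫ x in (0:ℝ)..X, Real.exp (-x ^ 2) * Y (kp X) x * Y (kp X) x ^ 2, fun a c => ?_⟩
  have hY := continuous_Y (kp X)
  rw [← intervalIntegral.integral_const_mul, ← intervalIntegral.integral_const_mul,
    ← intervalIntegral.integral_add, ← intervalIntegral.integral_add, Mel_eq]
  · congr 1
    ext x
    unfold v
    ring
  · exact Continuous.intervalIntegrable (by fun_prop) _ _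
  · exact Continuous.intervalIntegrable (by fun_prop) _ _
  · exact Continuous.intervalIntegrable (by fun_prop) _ _
  · exact Continuous.intervalIntegrable (by fun_prop) _ _

theorem signs : ∃ a c X1 X2 X3 X4 : ℝ, 0 < X1 ∧ X1 < X2 ∧ X2 < X3 ∧ X3 < X4 ∧
    0 < Mel a c X1 ∧ Mel a c X2 < 0 ∧ 0 < Mel a c X3 ∧ Mel a c X4 < 0 := by
  have hB0 := B0_pos
  have hB1 := B1_nonneg
  have hB := B0_lt
  set b := B1 / B0 with hb
  have hbB : b * B0 = B1 := div_mul_cancel₀ _ hB0.ne'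
  have hb1 : 1 < 2 * b := by
    by_contra hcon
    push Not at hcon
    nlinarith
  -- the parameters `a_d = (2 + d) b - 1`, `c_d = -(3 + d)`
  have hF : ∀ d : ℝ, F0 ((2 + d) * b - 1) (-(3 + d)) = 0 := by
    intro d
    rw [F0_eq, ← hbB]
    ring
  obtain ⟨X2, hX2, hX2'⟩ : ∃ X2 : ℝ, 1 ≤ X2 ∧ Mel (2 * b - 1) (-3) X2 < 0 := by
    refine ⟨Real.exp 22, ?_, ?_⟩
    · exact Real.one_le_exp (by norm_num)
    · have h1 := main_lower (a := 2 * b - 1) (X := Real.exp 22) (by linarith)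
        (Real.one_le_exp (by norm_num))
      have h2 : F0 (2 * b - 1) (-3) = 0 := by
        have := hF 0
        simpa using this
      have h3 : 22 < Real.log (1 + Real.exp 22) := by
        have h4 : Real.log (Real.exp 22) < Real.log (1 + Real.exp 22) :=
          Real.log_lt_log (Real.exp_pos _) (by linarith)
        rwa [Real.log_exp] at h4
      have h4 : 0 < (2 * b - 1 + 3) / 2 * Real.log (1 + Real.exp 22) - 22 := by nlinarith
      have h5 := mul_pos (kp_pos (Real.exp 22)) h4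
      linarith
  -- small `d`
  obtain ⟨d, hd, hd2⟩ : ∃ d : ℝ, 0 < d ∧ Mel ((2 + d) * b - 1) (-(3 + d)) X2 < 0 := by
    obtain ⟨I0, I1, I3, hI⟩ := Mel_affine X2
    have hc : Continuous fun d : ℝ => Mel ((2 + d) * b - 1) (-(3 + d)) X2 := by
      simp only [hI]
      fun_prop
    have h0 : (fun d : ℝ => Mel ((2 + d) * b - 1) (-(3 + d)) X2) 0 < 0 := by
      simpa using hX2'
    have h1 : ∀ᶠ d in 𝓝 (0:ℝ), Mel ((2 + d) * b - 1) (-(3 + d)) X2 < 0 :=
      hc.continuousAt.eventually_lt continuousAt_const h0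
    have h2 : ∀ᶠ d in 𝓝[>] (0:ℝ), Mel ((2 + d) * b - 1) (-(3 + d)) X2 < 0 :=
      h1.filter_mono nhdsWithin_le_nhds
    obtain ⟨d, hd, hd'⟩ := (h2.and self_mem_nhdsWithin).exists
    exact ⟨d, hd', hd⟩
  set a := (2 + d) * b - 1 with ha
  have hapos : 0 < a := by
    rw [ha]
    nlinarith
  obtain ⟨X3, hX3, hX3'⟩ : ∃ X3 : ℝ, X2 < X3 ∧ 0 < Mel a (-(3 + d)) X3 := by
    obtain ⟨X3, h1, h2, h3⟩ := ((eventually_gt_atTop X2).and ((eventually_gt_atTop (a + 1)).and
      (eventually_gt_atTop (4 * (a + 3 + d / 2) / d)))).exists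
    refine ⟨X3, h1, ?_⟩
    have hX3 : 1 < X3 := by linarith
    have h4 := main_upper (a := a) (d := d) (X := X3) hapos.le hd.le (by linarith)
      (by nlinarith [sq_nonneg X3])
    rw [hF d] at h4
    rw [div_lt_iff₀ hd] at h3
    have h5 : (a + 3) * X3 - d * (X3 ^ 2 / 2 - X3) / 2 < 0 := by
      have : (a + 3) * X3 - d * (X3 ^ 2 / 2 - X3) / 2 = X3 * (a + 3 + d / 2 - X3 * d / 4) := by
        ring
      rw [this]
      apply mul_neg_of_pos_of_neg (by linarith)
      linarith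
    have h6 := mul_neg_of_pos_of_neg (kp_pos X3) h5
    linarith
  obtain ⟨X1, hX1, hX12, hX1'⟩ : ∃ X1 : ℝ, 0 < X1 ∧ X1 < X2 ∧ 0 < Mel a (-(3 + d)) X1 := by
    have h0 : 0 < a / (3 + d) := by positivity
    refine ⟨min (1 / 2) (a / (3 + d)), lt_min (by norm_num) h0, ?_, ?_⟩
    · have := min_le_left (1 / 2 : ℝ) (a / (3 + d))
      linarith
    · refine Mel_pos_small hapos hd.le (lt_min (by norm_num) h0) ?_
      set m := min (1 / 2) (a / (3 + d))
      have h1 : m ≤ 1 / 2 := min_le_left _ _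
      have h2 : m ≤ a / (3 + d) := min_le_right _ _
      have h3 : 0 < m := lt_min (by norm_num) h0
      rw [le_div_iff₀ (by linarith)] at h2
      nlinarith
  -- small decrease of `a`
  obtain ⟨a', ha', hpos, h1, h2, h3⟩ : ∃ a' : ℝ, a' < a ∧ 0 < a' ∧
      0 < Mel a' (-(3 + d)) X1 ∧ Mel a' (-(3 + d)) X2 < 0 ∧ 0 < Mel a' (-(3 + d)) X3 := by
    have hc : ∀ X : ℝ, Continuous fun a' : ℝ => Mel a' (-(3 + d)) X := by
      intro X
      obtain ⟨I0, I1, I3, hI⟩ := Mel_affine X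
      simp only [hI]
      fun_prop
    have e1 : ∀ᶠ a' in 𝓝[<] a, 0 < Mel a' (-(3 + d)) X1 :=
      (continuousAt_const.eventually_lt (hc X1).continuousAt hX1').filter_mono
        nhdsWithin_le_nhds
    have e2 : ∀ᶠ a' in 𝓝[<] a, Mel a' (-(3 + d)) X2 < 0 :=
      ((hc X2).continuousAt.eventually_lt continuousAt_const hd2).filter_mono
        nhdsWithin_le_nhds
    have e3 : ∀ᶠ a' in 𝓝[<] a, 0 < Mel a' (-(3 + d)) X3 :=
      (continuousAt_const.eventually_lt (hc X3).continuousAt hX3').filter_mono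
        nhdsWithin_le_nhds
    have e4 : ∀ᶠ a' in 𝓝[<] a, 0 < a' := (eventually_gt_nhds hapos).filter_mono
      nhdsWithin_le_nhds
    obtain ⟨a', ⟨⟨⟨⟨h1, h2⟩, h3⟩, h4⟩, h5⟩⟩ :=
      ((((e1.and e2).and e3).and e4).and self_mem_nhdsWithin).exists
    exact ⟨a', h5, h4, h1, h2, h3⟩
  have hFneg : F0 a' (-(3 + d)) < 0 := by
    have h4 := hF d
    rw [F0_eq] at h4 ⊢
    have : (a' + 1) * B0 < (a + 1) * B0 := mul_lt_mul_of_pos_right (by linarith) hB0
    linarith
  obtain ⟨X4, hX4, hX4'⟩ : ∃ X4 : ℝ, X3 < X4 ∧ Mel a' (-(3 + d)) X4 < 0 := by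
    set F := F0 a' (-(3 + d)) with hFdef
    obtain ⟨X4, h4, h5⟩ := ((eventually_gt_atTop X3).and
      (eventually_gt_atTop ((5 + 2 * d) * 48 / (-F)))).exists
    refine ⟨X4, h4, ?_⟩
    have h6 : 1 ≤ X4 := by linarith
    have h7 := main_cont (a := a') (d := d) (X := X4) hpos.le hd.le h6
    rw [div_lt_iff₀ (by linarith)] at h5
    have h8 : (5 + 2 * d) * (48 / X4) < -F := by
      rw [← mul_div_assoc, div_lt_iff₀ (by linarith)]
      linarith
    linarith
  exact ⟨a', -(3 + d), X1, X2, X3, X4, hX1, hX12, hX3, hX4, h1, h2, h3, hX4'⟩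

end Pool.Agent.W730.HC
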